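import Pool.Agent.Helper79.FV.EDG

set_option autoImplicit false

open Finset

namespace Pool.Agent.Helper5.FV

/-- small total size of the edges with fewer than `C log n` vertices -/
def ST_EDS : Prop := ∃ c C : ℝ, 0 < c ∧ 0 < C ∧ ∀ n : ℕ, 2 ≤ n →
  ∀ (E : Finset (Finset (Fin n))), (∀ e ∈ E, e.Nonempty) →
  ∑ e ∈ E.filter (fun e => (e.card : ℝ) < C * Real.log n), (e.card : ℝ) ≤
    c * ((n : ℝ) * Real.sqrt n / Real.log n ^ 2) →
    ∃ k : ℕ, (∀ i j : ℕ, 1 ≤ i → i ≤ j → j ≤ k → Pool.Agent.Helper89.UB.bc E i ≤ Pool.Agent.Helper89.UB.bc E j) ∧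
      (∀ i j : ℕ, k ≤ i → i ≤ j → j ≤ n → Pool.Agent.Helper89.UB.bc E j ≤ Pool.Agent.Helper89.UB.bc E i)

theorem st_EDS (h1 : ST_MAC) : ST_EDS := by
  obtain ⟨c, C, hc, hC, h⟩ := h1
  refine ⟨c ^ 2, C, by positivity, hC, ?_⟩
  intro n hn E hE hs
  have hn1 : (1 : ℝ) < n := by exact_mod_cast (by omega : 1 < n)
  have hL : 0 < Real.log n := Real.log_pos hn1
  have hn0 : (0 : ℝ) < n := by linarith
  have hd : 0 < c * ((n : ℝ) / Real.log n) := by positivity
  refine h n hn E (univ.filter (fun v : Fin n => c * ((n : ℝ) / Real.log n) <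
    ((E.filter (fun e => v ∈ e ∧ (e.card : ℝ) < C * Real.log n)).card : ℝ))) hE ?_ ?_
  · set W0 : Finset (Fin n) := univ.filter (fun v : Fin n => c * ((n : ℝ) / Real.log n) <
      ((E.filter (fun e => v ∈ e ∧ (e.card : ℝ) < C * Real.log n)).card : ℝ)) with hW
    have e1 : (W0.card : ℝ) * (c * ((n : ℝ) / Real.log n)) ≤
        ∑ v ∈ W0, ((E.filter (fun e => v ∈ e ∧ (e.card : ℝ) < C * Real.log n)).card : ℝ) := by
      rw [← nsmul_eq_mul]
      refine Finset.card_nsmul_le_sum _ _ _ (fun v hv => ?_)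
      rw [hW, mem_filter] at hv
      exact hv.2.le
    have e2 : ∑ v ∈ W0, ((E.filter (fun e => v ∈ e ∧ (e.card : ℝ) < C * Real.log n)).card : ℝ) ≤
        ∑ v : Fin n, ((E.filter (fun e => v ∈ e ∧ (e.card : ℝ) < C * Real.log n)).card : ℝ) :=
      Finset.sum_le_sum_of_subset_of_nonneg (Finset.subset_univ _)
        (fun _ _ _ => Nat.cast_nonneg _)
    have e4 : (W0.card : ℝ) * (c * ((n : ℝ) / Real.log n)) ≤
        c ^ 2 * ((n : ℝ) * Real.sqrt n / Real.log n ^ 2) := by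
      rw [edg_dc] at e2
      exact e1.trans (e2.trans hs)
    have e5 : c ^ 2 * ((n : ℝ) * Real.sqrt n / Real.log n ^ 2) =
        (c * (Real.sqrt n / Real.log n)) * (c * ((n : ℝ) / Real.log n)) := by
      field_simp
    rw [e5] at e4
    exact le_of_mul_le_mul_right e4 hd
  · intro v hv
    by_contra hh
    exact hv (mem_filter.2 ⟨mem_univ _, not_le.1 hh⟩)

/-- the statement of the hand-in -/
def ST_FINAL : Prop :=
    ∃ c C : ℝ, 0 < c ∧ 0 < C ∧ ∀ n : ℕ, 2 ≤ n → ∀ (E : Finset (Finset (Fin n))) (b : ℕ → ℕ),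
      (∀ e ∈ E, e.Nonempty) →
      (∀ m : ℕ, b m = Set.ncard {P : Finset (Finset (Fin n)) |
          P.card = m ∧
          (∀ B ∈ P, B.Nonempty) ∧
          (∀ B ∈ P, ∀ C ∈ P, B ≠ C → Disjoint B C) ∧
          (∀ v : Fin n, ∃ B ∈ P, v ∈ B) ∧
          (∀ B ∈ P, ∀ e ∈ E, ¬ e ⊆ B)}) →
      ((∃ W0 : Finset (Fin n), (W0.card : ℝ) ≤ c * (Real.sqrt n / Real.log n) ∧
          ∀ v : Fin n, v ∉ W0 →
            ((E.filter (fun e => v ∈ e ∧ (e.card : ℝ) < C * Real.log n)).card : ℝ) ≤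
              c * (n / Real.log n)) ∨
        ∑ e ∈ E.filter (fun e => (e.card : ℝ) < C * Real.log n), (e.card : ℝ) ≤
          c * ((n : ℝ) * Real.sqrt n / Real.log n ^ 2)) →
      ∃ k : ℕ,
        (∀ i j : ℕ, 1 ≤ i → i ≤ j → j ≤ k → b i ≤ b j) ∧
        (∀ i j : ℕ, k ≤ i → i ≤ j → j ≤ n → b j ≤ b i)

theorem st_FINAL (h1 : ST_MAC) (h2 : ST_EDS) : ST_FINAL := by
  obtain ⟨c1, C1, hc1, hC1, g1⟩ := h1
  obtain ⟨c2, C2, hc2, hC2, g2⟩ := h2
  refine ⟨min c1 c2, max C1 C2, lt_min hc1 hc2, lt_of_lt_of_le hC1 (le_max_left _ _), ?_⟩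
  intro n hn E b hE hb hyp
  have hb' : b = Pool.Agent.Helper89.UB.bc E := funext fun m => hb m
  rw [hb']
  have hn2 : (2 : ℝ) ≤ n := by exact_mod_cast hn
  have hlog : 0 < Real.log n := Real.log_pos (by linarith)
  rcases hyp with ⟨W0, hW, hdeg⟩ | hcard
  · refine g1 n hn E W0 hE ?_ ?_
    · refine hW.trans ?_
      exact mul_le_mul_of_nonneg_right (min_le_left _ _) (by positivity)
    · intro v hv
      have hsub : E.filter (fun e => v ∈ e ∧ (e.card : ℝ) < C1 * Real.log n) ⊆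
          E.filter (fun e => v ∈ e ∧ (e.card : ℝ) < max C1 C2 * Real.log n) := by
        intro e he
        rw [Finset.mem_filter] at he ⊢
        exact ⟨he.1, he.2.1, he.2.2.trans_le
          (mul_le_mul_of_nonneg_right (le_max_left _ _) hlog.le)⟩
      have h3 : ((E.filter (fun e => v ∈ e ∧ (e.card : ℝ) < C1 * Real.log n)).card : ℝ) ≤
          ((E.filter (fun e => v ∈ e ∧ (e.card : ℝ) < max C1 C2 * Real.log n)).card : ℝ) := by
        exact_mod_cast Finset.card_le_card hsub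
      refine h3.trans ((hdeg v hv).trans ?_)
      exact mul_le_mul_of_nonneg_right (min_le_left _ _) (by positivity)
  · refine g2 n hn E hE ?_
    have hsub : E.filter (fun e => (e.card : ℝ) < C2 * Real.log n) ⊆
        E.filter (fun e => (e.card : ℝ) < max C1 C2 * Real.log n) := by
      intro e he
      rw [Finset.mem_filter] at he ⊢
      exact ⟨he.1, he.2.trans_le (mul_le_mul_of_nonneg_right (le_max_right _ _) hlog.le)⟩
    have h3 : ∑ e ∈ E.filter (fun e => (e.card : ℝ) < C2 * Real.log n), (e.card : ℝ) ≤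
        ∑ e ∈ E.filter (fun e => (e.card : ℝ) < max C1 C2 * Real.log n), (e.card : ℝ) :=
      Finset.sum_le_sum_of_subset_of_nonneg hsub (fun _ _ _ => Nat.cast_nonneg _)
    refine h3.trans (hcard.trans ?_)
    exact mul_le_mul_of_nonneg_right (min_le_right _ _) (by positivity)

end Pool.Agent.Helper5.FV
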