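import Pool.Agent.Helper5.FV.Stmts

set_option autoImplicit false

open Finset Pool.Agent.Helper8.UN

namespace Pool.Agent.Helper5.FV

theorem psw5_inj {n : ℕ} (k : ℕ) (E : Finset (Finset (Fin n))) (W0 : Finset (Fin n))
    (hT : Two E) (hk : W0.card ≤ k) : 0 < PP E W0 k := by
  classical
  unfold PP
  rw [Finset.card_pos]
  set f : Fin n → ℕ := fun v => if h : v ∈ W0 then ((W0.equivFin ⟨v, h⟩ : Fin W0.card) : ℕ) + 1
    else 0 with hf
  refine ⟨f, ?_⟩
  unfold CC
  rw [Finset.mem_filter, Fintype.mem_piFinset]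
  constructor
  · intro v
    by_cases hv : v ∈ W0
    · rw [if_pos hv, Finset.mem_Icc]
      have h1 : f v = ((W0.equivFin ⟨v, hv⟩ : Fin W0.card) : ℕ) + 1 := by
        rw [hf]; simp only [hv, dif_pos]
      have h2 := (W0.equivFin ⟨v, hv⟩ : Fin W0.card).2
      rw [h1]
      omega
    · rw [if_neg hv, Finset.mem_singleton, hf]
      simp only [hv, dif_neg, not_false_iff]
  · intro e he heW
    obtain ⟨u, hu, v, hv, huv⟩ := Finset.one_lt_card.1 (lt_of_lt_of_le one_lt_two (hT e he))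
    refine ⟨u, hu, v, hv, fun hc => huv ?_⟩
    have h1 : f u = ((W0.equivFin ⟨u, heW hu⟩ : Fin W0.card) : ℕ) + 1 := by
      rw [hf]; simp only [heW hu, dif_pos]
    have h2 : f v = ((W0.equivFin ⟨v, heW hv⟩ : Fin W0.card) : ℕ) + 1 := by
      rw [hf]; simp only [heW hv, dif_pos]
    rw [h1, h2] at hc
    have h3 : (W0.equivFin ⟨u, heW hu⟩ : Fin W0.card) = W0.equivFin ⟨v, heW hv⟩ := by
      apply Fin.ext
      omega
    have h4 := W0.equivFin.injective h3
    exact congrArg Subtype.val h4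

theorem st_PSW (h1 : ST_F1Y) (h2 : ST_BKY) (h3 : Pool.Agent.Helper8.UN.ST_B3N) : ST_PSW := by
  obtain ⟨n1, g1⟩ := h3
  refine ⟨max n1 3, ?_⟩
  intro n hn D0 r k E W0 hR hk
  have hn1 : n1 ≤ n := le_trans (le_max_left _ _) hn
  have hn3 : 3 ≤ n := le_trans (le_max_right _ _) hn
  have hnR : (3 : ℝ) ≤ n := by exact_mod_cast hn3
  have hlog : 0 < Real.log n := Real.log_pos (by linarith)
  have hx : 0 ≤ (n : ℝ) / Real.log n := by positivity
  obtain ⟨a1, a2, -, a4, -, -⟩ := g1 n hn1 D0 r k hR.d0 hR.r0 (by linarith)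
  have hW : W0.card ≤ k := by
    have hs : Real.sqrt n ≤ n := by
      rw [Real.sqrt_le_left (by linarith)]
      nlinarith
    have hs' : Real.sqrt n / Real.log n ≤ (n : ℝ) / Real.log n :=
      div_le_div_of_nonneg_right hs hlog.le
    have : (W0.card : ℝ) ≤ k := by
      have := hR.w0
      linarith
    exact_mod_cast this
  have hpos := psw5_inj k E W0 hR.two hW
  have hF := h1 n (DD n D0 r) k E W0 (univ \ W0) hR.two (fun y hy => by
    rw [Finset.mem_sdiff] at hy
    exact h2 n D0 r E y hR.two a1 (hR.deg y hy.2)) Finset.disjoint_sdiff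
  rw [Finset.union_sdiff_of_subset (Finset.subset_univ _)] at hF
  have hkD : 0 < k - DD n D0 r := by omega
  exact lt_of_lt_of_le (Nat.mul_pos (pow_pos hkD _) hpos) hF

end Pool.Agent.Helper5.FV
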