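import Pool.Agent.Helper8.UN.All
import Pool.Agent.Helper27.FV.SUB
import Pool.Agent.Helper2.FV.REG
import Pool.Agent.Helper44.FV.BKY
import Pool.Agent.Helper88.FV.F1Y
import Pool.Agent.Helper60.FV.CLS
import Pool.Agent.Helper93.FV.QQC
import Pool.Agent.Helper16.FV.FBC
import Pool.Agent.Helper22.FV.FBS
import Pool.Agent.Helper67.FV.DEC
import Pool.Agent.Helper80.FV.TLB
import Pool.Agent.Helper98.FV.TAI
import Pool.Agent.Helper5.FV.PSW
import Pool.Agent.Helper85.FV.STW
import Pool.Agent.Helper64.FV.RTI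
import Pool.Agent.Helper48.FV.SHF
import Pool.Agent.Helper77.FV.LMU
import Pool.Agent.Helper51.FV.DCW
import Pool.Agent.Helper25.FV.FAW
import Pool.Agent.Helper17.FV.MIX
import Pool.Agent.Helper33.FV.CMP
import Pool.Agent.Helper56.FV.STE
import Pool.Agent.Helper14.FV.WM1
import Pool.Agent.Helper74.FV.WM2
import Pool.Agent.Helper7.FV.WM3
import Pool.Agent.Helper81.FV.WMC
import Pool.Agent.Helper92.FV.LMW
import Pool.Agent.Helper12.FV.CDE
import Pool.Agent.Helper20.FV.DCE
import Pool.Agent.Helper62.FV.MA2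
import Pool.Agent.Helper34.FV.MAC
import Pool.Agent.Helper79.FV.EDG
import Pool.Agent.Helper5.FV.Final

/-! # FV: assembly -/

set_option autoImplicit false

namespace Pool.Agent.Helper5.FV

open Pool.Agent.Helper8.UN Pool.Agent.Helper89

theorem all_REG : ST_REG := Pool.Agent.Helper2.FV.st_REG
theorem all_WM1 : ST_WM1 := Pool.Agent.Helper14.FV.st_WM1
theorem all_F1Y : ST_F1Y := st_F1Y all_CNT
theorem all_DEC : ST_DEC := st_DEC st_CLS st_FBC st_FBS
theorem all_TLB : ST_TLB := st_TLB st_CLS st_FBC all_F1Y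
theorem all_TAI : ST_TAI := st_TAI all_TLB st_BKY st_B3N
theorem all_PSW : ST_PSW := st_PSW all_F1Y st_BKY st_B3N
theorem all_STW : ST_STW := st_STW all_HDF all_RAT all_EXM all_SYM st_F2 all_POS st_BKD st_B3N
theorem all_RTI : ST_RTI := st_RTI all_RAT all_HDF all_POS st_BKD st_B3N
theorem all_SHF : ST_SHF := st_SHF all_STW
theorem all_LMU : ST_LMU := st_LMU all_RAT all_HDF all_POS st_BKD st_B3N
theorem all_DCW : ST_DCW := st_DCW all_HSF all_CHN all_RAT all_F1 st_F2 all_POS st_B3N st_BKD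
theorem all_FAW : ST_FAW := st_FAW all_F1 st_F2 all_POS st_B3N st_BKD
theorem all_CMP : ST_CMP := st_CMP st_SUB all_REG st_QQC all_STW all_RTI all_SHF
theorem all_STE : ST_STE := st_STE all_TAI all_DEC all_CMP st_MIX all_PSW st_QQC
theorem all_WM2 : ST_WM2 := st_WM2 st_WL0 all_WM1
theorem all_WM3 : ST_WM3 := st_WM3 st_WL0 all_WM1
theorem all_WMC : ST_WMC := st_WMC all_WM2 all_WM3
theorem all_LMW : ST_LMW := st_LMW all_DEC all_TAI all_CMP all_PSW
theorem all_CDE : ST_CDE := st_CDE st_SUB all_REG st_QQC all_RTI all_SHF all_LMU all_DCW all_FAW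
theorem all_DCE : ST_DCE := st_DCE all_DEC st_QQC all_CDE all_LMW all_PSW
theorem all_MA2 : ST_MA2 := st_MA2 UB.st_LNK (UB.st_INIT UB.st_MRG UB.st_AMG) UB.st_UNI st_LNA
  all_STE st_BON all_WM1 all_WMC all_DCE st_ININ
theorem all_MAC : ST_MAC := st_MAC all_MA2 st_STI
theorem all_EDS : ST_EDS := st_EDS all_MAC
theorem all_FINAL : ST_FINAL := st_FINAL all_MAC all_EDS

end Pool.Agent.Helper5.FV
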