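import Pool.Agent.Helper8.UN.All

set_option autoImplicit false

namespace Pool.Agent.Helper5.FV.MaxDegreeOld

/-- There are `c > 0` and `C > 0` such that for every `n ≥ 2` and every hypergraph `E` on `n`
vertices (edges are nonempty sets) in which every vertex lies in at most `c n / log n` edges with
fewer than `C log n` vertices (larger edges are arbitrary), the numbers `b m` of partitions of the
vertices into `m` nonempty blocks without edges form a unimodal sequence. -/
theorem result :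
    ∃ c C : ℝ, 0 < c ∧ 0 < C ∧ ∀ n : ℕ, 2 ≤ n → ∀ (E : Finset (Finset (Fin n))) (b : ℕ → ℕ),
      (∀ e ∈ E, e.Nonempty) →
      (∀ m : ℕ, b m = Set.ncard {P : Finset (Finset (Fin n)) |
          P.card = m ∧
          (∀ B ∈ P, B.Nonempty) ∧
          (∀ B ∈ P, ∀ C ∈ P, B ≠ C → Disjoint B C) ∧
          (∀ v : Fin n, ∃ B ∈ P, v ∈ B) ∧
          (∀ B ∈ P, ∀ e ∈ E, ¬ e ⊆ B)}) →
      (∀ v : Fin n, ((E.filter (fun e => v ∈ e ∧ (e.card : ℝ) < C * Real.log n)).card : ℝ) ≤
          c * (n / Real.log n)) →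
      ∃ k : ℕ,
        (∀ i j : ℕ, 1 ≤ i → i ≤ j → j ≤ k → b i ≤ b j) ∧
        (∀ i j : ℕ, k ≤ i → i ≤ j → j ≤ n → b j ≤ b i) := by
  obtain ⟨c, C, hc, hC, h⟩ := Pool.Agent.Helper8.UN.all_MAINC
  refine ⟨c, C, hc, hC, ?_⟩
  intro n hn E b hE hb h1
  have h3 := h n hn E hE h1
  have h4 : b = Pool.Agent.Helper89.UB.bc E := funext fun m => hb m
  rw [h4]
  exact h3

end Pool.Agent.Helper5.FV.MaxDegreeOld
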