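import Pool.Agent.Helper8.UN.Stmts

/-!
# FV: unimodality for hypergraphs with few vertices of large degree

`W0` = the exceptional vertices, `U = univ \ W0`, `EU = E.filter (· ⊆ U)` satisfies `Reg`.
A partition (colouring) of all vertices is split into the blocks (classes) `Q` which meet `W0` and
the rest, a partition (colouring) of `univ \ un Q ⊆ U`.
-/

set_option autoImplicit false

open Finset Pool.Agent.Helper8.UN

namespace Pool.Agent.Helper5.FV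

/-- union of a family -/
def un {n : ℕ} (Q : Finset (Finset (Fin n))) : Finset (Fin n) := Q.biUnion id

open scoped Classical in
/-- families of disjoint sets without edges which meet `W0` and cover `W0` -/
noncomputable def QQ {n : ℕ} (E : Finset (Finset (Fin n))) (W0 : Finset (Fin n)) :
    Finset (Finset (Finset (Fin n))) :=
  univ.filter (fun Q => (∀ B ∈ Q, (B ∩ W0).Nonempty ∧ Pool.Agent.Helper89.UB.Al E B) ∧
    (∀ B ∈ Q, ∀ B' ∈ Q, B ≠ B' → Disjoint B B') ∧ W0 ⊆ un Q)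

/-- the classes of a colouring which meet `W0` -/
def cls {n : ℕ} (W0 : Finset (Fin n)) (f : Fin n → ℕ) : Finset (Finset (Fin n)) :=
  W0.image (fun u => univ.filter (fun y => f y = f u))

/-- colourings whose classes at `W0` are `Q` (as a number) -/
noncomputable def tt {n : ℕ} (E : Finset (Finset (Fin n))) (Q : Finset (Finset (Fin n)))
    (k : ℕ) : ℝ := (k.descFactorial Q.card : ℝ) * PP E (univ \ un Q) (k - Q.card)

/-- few colours are blocked at `y` -/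
def BY {n : ℕ} (E : Finset (Finset (Fin n))) (D : ℕ) (y : Fin n) : Prop :=
  ∀ (W : Finset (Fin n)) (k : ℕ) (f : Fin n → ℕ), y ∈ W → bk E W k f y ≤ D

/-- the hypotheses: `E` arbitrary at the vertices of `W0` -/
structure RegW {n : ℕ} (D0 r : ℕ) (E : Finset (Finset (Fin n))) (W0 : Finset (Fin n)) : Prop where
  two : Two E
  deg : ∀ v, v ∉ W0 → (E.filter (fun e => v ∈ e ∧ e.card < r)).card ≤ D0
  d0 : (D0 : ℝ) ≤ 1 / 100000 * (n / Real.log n)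
  r0 : 2000 * Real.log n ≤ r
  w0 : (W0.card : ℝ) ≤ 1 / 100000 * (Real.sqrt n / Real.log n)

/-- bound for the number of vertices with a colour used on `W0` -/
noncomputable def LL (n : ℕ) (W0 : Finset (Fin n)) : ℕ :=
  ⌈10 * ((W0.card : ℝ) + 1) * Real.log n⌉₊

/-- regularity of a sequence in the window, slightly weaker than `Win` -/
def Wi2 (n : ℕ) (p : ℕ → ℝ) : Prop :=
  ∀ k : ℕ, 67 / 100 * ((n : ℝ) / Real.log n) ≤ k → (k : ℝ) ≤ 121 / 100 * (n / Real.log n) →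
    0 < p (k - 1) ∧ 0 < p k ∧ 0 < p (k + 1) ∧
    (1 + 9985 / 10000 * (n / ((k : ℝ) * (k + 1)))) * (p (k - 1) * p (k + 1)) ≤ p k ^ 2 ∧
    p k ^ 2 ≤ Real.exp (10045 / 10000 * (n / (k : ℝ) ^ 2)) * (p (k - 1) * p (k + 1))

/-! ### the edges inside `U` -/

/-- only the edges inside `W` matter -/
def ST_SUB : Prop := ∀ (n k : ℕ) (E : Finset (Finset (Fin n))) (U W : Finset (Fin n)), W ⊆ U →
  PP (E.filter (fun e => e ⊆ U)) W k = PP E W k ∧ AA (E.filter (fun e => e ⊆ U)) W k = AA E W k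

/-- the edges inside `univ \ W0` -/
def ST_REG : Prop := ∀ (n D0 r : ℕ) (E : Finset (Finset (Fin n))) (W0 : Finset (Fin n)),
  RegW D0 r E W0 → Reg D0 r (E.filter (fun e => e ⊆ univ \ W0))

/-- few colours are blocked at a good vertex (as BKD) -/
def ST_BKY : Prop := ∀ (n D0 r : ℕ) (E : Finset (Finset (Fin n))) (y : Fin n), Two E → 4 ≤ r →
  (E.filter (fun e => y ∈ e ∧ e.card < r)).card ≤ D0 → BY E (DD n D0 r) y

/-- adding a set of good vertices (as F1) -/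
def ST_F1Y : Prop := ∀ (n D k : ℕ) (E : Finset (Finset (Fin n))) (W T : Finset (Fin n)), Two E →
  (∀ y ∈ T, BY E D y) → Disjoint W T → (k - D) ^ T.card * PP E W k ≤ PP E (W ∪ T) k

/-! ### decomposition -/

/-- the classes at `W0` -/
def ST_CLS : Prop := ∀ (n k : ℕ) (E : Finset (Finset (Fin n))) (W0 : Finset (Fin n))
  (f : Fin n → ℕ), Two E → f ∈ CC E univ k → cls W0 f ∈ QQ E W0 ∧ (cls W0 f).card ≤ W0.card ∧
    un (cls W0 f) = univ.filter (fun y => ∃ u ∈ W0, f y = f u)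

/-- members of `QQ` -/
def ST_QQC : Prop := ∀ (n : ℕ) (E : Finset (Finset (Fin n))) (W0 : Finset (Fin n))
  (Q : Finset (Finset (Fin n))), Q ∈ QQ E W0 → Q.card ≤ W0.card ∧ univ \ un Q ⊆ univ \ W0

open scoped Classical in
/-- number of colourings with given classes at `W0` -/
def ST_FBC : Prop := ∀ (n k : ℕ) (E : Finset (Finset (Fin n))) (W0 : Finset (Fin n))
  (Q : Finset (Finset (Fin n))), Two E → Q ∈ QQ E W0 →
  ((CC E univ k).filter (fun f => cls W0 f = Q)).card =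
    k.descFactorial Q.card * PP E (univ \ un Q) (k - Q.card)

open scoped Classical in
/-- number of surjective colourings with given classes at `W0` -/
def ST_FBS : Prop := ∀ (n k : ℕ) (E : Finset (Finset (Fin n))) (W0 : Finset (Fin n))
  (Q : Finset (Finset (Fin n))), Two E → Q ∈ QQ E W0 →
  ((SS E univ k).filter (fun f => cls W0 f = Q)).card =
    k.descFactorial Q.card * AA E (univ \ un Q) (k - Q.card)

/-- decomposition of the numbers of colourings -/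
def ST_DEC : Prop := ∀ (n k : ℕ) (E : Finset (Finset (Fin n))) (W0 : Finset (Fin n)), Two E →
  PP E univ k = ∑ Q ∈ QQ E W0, k.descFactorial Q.card * PP E (univ \ un Q) (k - Q.card) ∧
  AA E univ k = ∑ Q ∈ QQ E W0, k.descFactorial Q.card * AA E (univ \ un Q) (k - Q.card)

/-- few vertices have a colour used on `W0` -/
def ST_TLB : Prop := ∀ (n D k L : ℕ) (E : Finset (Finset (Fin n))) (W0 : Finset (Fin n)), Two E →
  (∀ y, y ∉ W0 → BY E D y) →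
  (k - D) ^ L * ∑ Q ∈ (QQ E W0).filter (fun Q => L + W0.card ≤ (un Q).card),
    k.descFactorial Q.card * PP E (univ \ un Q) (k - Q.card) ≤
      n.choose L * W0.card ^ L * PP E univ k

/-- the tail is small -/
def ST_TAI : Prop := ∃ n₀ : ℕ, ∀ n ≥ n₀, ∀ (D0 r k : ℕ) (E : Finset (Finset (Fin n)))
  (W0 : Finset (Fin n)), RegW D0 r E W0 → 66 / 100 * ((n : ℝ) / Real.log n) ≤ k →
  (n : ℝ) ^ 5 * ∑ Q ∈ (QQ E W0).filter (fun Q => LL n W0 + W0.card ≤ (un Q).card), tt E Q k ≤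
    PP E univ k

/-- positivity -/
def ST_PSW : Prop := ∃ n₀ : ℕ, ∀ n ≥ n₀, ∀ (D0 r k : ℕ) (E : Finset (Finset (Fin n)))
  (W0 : Finset (Fin n)), RegW D0 r E W0 → 66 / 100 * ((n : ℝ) / Real.log n) ≤ k →
  0 < PP E univ k

/-! ### good vertices: subsets `W` (`E` satisfies `Reg`) -/

/-- STA for large `W` -/
def ST_STW : Prop := ∃ n₀ : ℕ, ∀ n ≥ n₀, ∀ (D0 r k : ℕ) (E : Finset (Finset (Fin n)))
  (W : Finset (Fin n)), Reg D0 r E → 99 / 100 * (n : ℝ) ≤ W.card →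
  665 / 1000 * ((n : ℝ) / Real.log n) ≤ k → (k : ℝ) ≤ 122 / 100 * (n / Real.log n) →
  0 < PP E W (k - 1) ∧ 0 < PP E W k ∧ 0 < PP E W (k + 1) ∧
  (1 + 999 / 1000 * ((W.card : ℝ) / ((k : ℝ) * (k + 1)))) *
    ((PP E W (k - 1) : ℝ) * PP E W (k + 1)) ≤ (PP E W k : ℝ) ^ 2 ∧
  (PP E W k : ℝ) ^ 2 ≤ Real.exp (1004 / 1000 * (n / (k : ℝ) ^ 2)) *
    ((PP E W (k - 1) : ℝ) * PP E W (k + 1))

/-- ratios for `W ⊆ W'` -/
def ST_RTI : Prop := ∃ n₀ : ℕ, ∀ n ≥ n₀, ∀ (D0 r k : ℕ) (E : Finset (Finset (Fin n)))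
  (W W' : Finset (Fin n)), Reg D0 r E → 665 / 1000 * ((n : ℝ) / Real.log n) ≤ k → W ⊆ W' →
  (PP E W k : ℝ) * PP E W' (k - 1) ≤ (PP E W' k : ℝ) * PP E W (k - 1) ∧
  (PP E W' k : ℝ) * PP E W (k - 1) ≤
    Real.exp (2 * ((W' \ W).card : ℝ) / k) * ((PP E W k : ℝ) * PP E W' (k - 1))

/-- shifted ratios -/
def ST_SHF : Prop := ∃ n₀ : ℕ, ∀ n ≥ n₀, ∀ (D0 r k j : ℕ) (E : Finset (Finset (Fin n)))
  (W : Finset (Fin n)), Reg D0 r E → 99 / 100 * (n : ℝ) ≤ W.card →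
  67 / 100 * ((n : ℝ) / Real.log n) ≤ k →
  (k : ℝ) ≤ 122 / 100 * (n / Real.log n) → (j : ℝ) ≤ 1 / 1000 * (n / Real.log n) →
  (PP E W k : ℝ) * PP E W (k - j - 1) ≤ (PP E W (k - j) : ℝ) * PP E W (k - 1) ∧
  (PP E W (k - j) : ℝ) * PP E W (k - 1) ≤
    Real.exp (2 * (j : ℝ) * n / (k : ℝ) ^ 2) * ((PP E W k : ℝ) * PP E W (k - j - 1))

/-- many unused colours only if there are many colours -/
def ST_LMU : Prop := ∃ n₀ : ℕ, ∀ n ≥ n₀, ∀ (D0 r m : ℕ) (E : Finset (Finset (Fin n)))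
  (W : Finset (Fin n)), Reg D0 r E → 99999 / 100000 * (n : ℝ) ≤ W.card →
  67 / 100 * ((n : ℝ) / Real.log n) ≤ m →
  105 / 100 * (PP E W (m + 1) : ℝ) ≤ (m + 1) * PP E W m →
  98 / 100 * ((n : ℝ) / Real.log n) ≤ m

/-- DCM for large `W`, constant 21/20 -/
def ST_DCW : Prop := ∃ n₀ : ℕ, ∀ n ≥ n₀, ∀ (D0 r m : ℕ) (E : Finset (Finset (Fin n)))
  (W : Finset (Fin n)), Reg D0 r E → 95 / 100 * (n : ℝ) ≤ W.card →
  67 / 100 * ((n : ℝ) / Real.log n) ≤ m → (m : ℝ) ≤ 121 / 100 * (n / Real.log n) →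
  105 / 100 * (PP E W (m + 1) : ℝ) ≤ (m + 1) * PP E W m →
  AA E W (m + 1) ≤ (m + 1) * AA E W m

/-- FAR for all `W`, and small `W` -/
def ST_FAW : Prop := ∃ n₀ : ℕ, ∀ n ≥ n₀, ∀ (D0 r m : ℕ) (E : Finset (Finset (Fin n)))
  (W : Finset (Fin n)), Reg D0 r E → (119 / 100 * ((n : ℝ) / Real.log n) ≤ m ∨
    (97 / 100 * ((n : ℝ) / Real.log n) ≤ m ∧ (W.card : ℝ) ≤ 951 / 1000 * n)) →
  AA E W (m + 1) ≤ (m + 1) * AA E W m

/-! ### mixtures -/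

/-- mixtures of regular sequences (Cauchy-Schwarz and Kantorovich) -/
def ST_MIX : Prop := ∀ (ι : Type) (C G : Finset ι) (a t b : ι → ℝ) (s s' ε η ρ : ℝ), G ⊆ C →
  (∀ c ∈ C, 0 ≤ a c ∧ 0 ≤ t c ∧ 0 ≤ b c) → (∀ c ∈ G, 0 < a c ∧ 0 < t c ∧ 0 < b c) →
  0 ≤ s → 0 ≤ ε → 0 ≤ η → η ≤ 1 / 2 → 0 < ρ →
  (∀ c ∈ G, (1 + s) * (a c * b c) ≤ t c ^ 2) →
  (∀ c ∈ G, t c ^ 2 ≤ Real.exp s' * (a c * b c)) →
  (∀ c ∈ G, ρ * a c ≤ t c ∧ t c ≤ ρ * Real.exp ε * a c) →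
  (1 - η) * ∑ c ∈ C, a c ≤ ∑ c ∈ G, a c → (1 - η) * ∑ c ∈ C, t c ≤ ∑ c ∈ G, t c →
  (1 - η) * ∑ c ∈ C, b c ≤ ∑ c ∈ G, b c →
  (1 + s) * (1 - η) ^ 2 * ((∑ c ∈ C, a c) * ∑ c ∈ C, b c) ≤
    Real.exp (ε ^ 2) * (∑ c ∈ C, t c) ^ 2 ∧
  (1 - η) ^ 2 * (∑ c ∈ C, t c) ^ 2 ≤ Real.exp s' * ((∑ c ∈ C, a c) * ∑ c ∈ C, b c)

/-- one component: second difference and first ratio -/
def ST_CMP : Prop := ∃ n₀ : ℕ, ∀ n ≥ n₀, ∀ (D0 r k : ℕ) (E : Finset (Finset (Fin n)))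
  (W0 : Finset (Fin n)) (Q : Finset (Finset (Fin n))), RegW D0 r E W0 → Q ∈ QQ E W0 →
  (un Q).card < LL n W0 + W0.card →
  67 / 100 * ((n : ℝ) / Real.log n) ≤ k → (k : ℝ) ≤ 121 / 100 * (n / Real.log n) →
  0 < tt E Q (k - 1) ∧ 0 < tt E Q k ∧ 0 < tt E Q (k + 1) ∧
  (1 + 9988 / 10000 * (n / ((k : ℝ) * (k + 1)))) * (tt E Q (k - 1) * tt E Q (k + 1)) ≤
    tt E Q k ^ 2 ∧
  tt E Q k ^ 2 ≤ Real.exp (10042 / 10000 * (n / (k : ℝ) ^ 2)) *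
    (tt E Q (k - 1) * tt E Q (k + 1)) ∧
  (PP E (univ \ W0) k : ℝ) * tt E Q (k - 1) ≤
    Real.exp (1 / 1000 * Real.log n / Real.sqrt n) * (tt E Q k * PP E (univ \ W0) (k - 1)) ∧
  tt E Q k * PP E (univ \ W0) (k - 1) ≤
    Real.exp (1 / 1000 * Real.log n / Real.sqrt n) *
      ((PP E (univ \ W0) k : ℝ) * tt E Q (k - 1))

/-- regularity of the numbers of colourings -/
def ST_STE : Prop := ∃ n₀ : ℕ, ∀ n ≥ n₀, ∀ (D0 r : ℕ) (E : Finset (Finset (Fin n)))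
  (W0 : Finset (Fin n)), RegW D0 r E W0 → Wi2 n (fun k => (PP E univ k : ℝ))

/-- ratios of the expected numbers of unused colours (as WL1) -/
def ST_WM1 : Prop := ∃ n₀ : ℕ, ∀ n ≥ n₀, ∀ p : ℕ → ℝ, Wi2 n p → ∀ m k : ℕ,
  68 / 100 * ((n : ℝ) / Real.log n) ≤ m → (m : ℝ) ≤ 120 / 100 * (n / Real.log n) →
  (k : ℝ) ≤ m + 6 * Real.log n → (m : ℝ) ≤ k + 6 * Real.log n →
  0 < lam p k ∧ 0 < lam p (k + 1) ∧
  lam p k * Real.exp (998 / 1000 * (n / (m : ℝ) ^ 2)) ≤ lam p (k + 1) ∧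
  lam p (k + 1) ≤ lam p k * Real.exp (1005 / 1000 * (n / (m : ℝ) ^ 2))

/-- second differences (as WL2) -/
def ST_WM2 : Prop := ∃ n₀ : ℕ, ∀ n ≥ n₀, ∀ p : ℕ → ℝ, Wi2 n p → ∀ m i : ℕ,
  68 / 100 * ((n : ℝ) / Real.log n) ≤ m → (m : ℝ) ≤ 120 / 100 * (n / Real.log n) →
  (i : ℝ) ≤ 4 * Real.log n →
  0 < ff p i m ∧
  |ff p i (m + 1) + ff p i (m - 1) - 2 * ff p i m| ≤
    9 / 1000 * (n / (m : ℝ) ^ 2) * ff p i m

/-- sizes of the terms (as WL3) -/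
def ST_WM3 : Prop := ∃ n₀ : ℕ, ∀ n ≥ n₀, ∀ p : ℕ → ℝ, Wi2 n p → ∀ m : ℕ,
  68 / 100 * ((n : ℝ) / Real.log n) ≤ m → (m : ℝ) ≤ 120 / 100 * (n / Real.log n) →
  lam p (m + 1) ≤ 11 / 10 →
  (∀ i m' : ℕ, (i : ℝ) ≤ 4 * Real.log n → m - 1 ≤ m' → m' ≤ m + 1 →
    0 < ff p i m' ∧ ff p i m' ≤ (11 / 10) ^ i / (i.factorial : ℝ)) ∧
  (∀ m' : ℕ, m - 1 ≤ m' → m' ≤ m + 1 →
    21 / 100 ≤ 1 - ff p 1 m' + ff p 2 m' - ff p 3 m' - ff p 4 m') ∧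
  (∀ m' : ℕ, m - 1 ≤ m' → m' ≤ m + 1 →
    ff p ⌊4 * Real.log n⌋₊ m' ≤ 1 / 4000 * (n / (m : ℝ) ^ 2))

/-- log-concavity in the window (as WLC) -/
def ST_WMC : Prop := ∃ n₀ : ℕ, ∀ n ≥ n₀, ∀ p a : ℕ → ℝ, Wi2 n p →
  (∀ m I : ℕ, |a m - ∑ i ∈ Finset.range I, (-1) ^ i * ((m.choose i : ℝ) * p (m - i))| ≤
    (m.choose I : ℝ) * p (m - I)) →
  ∀ m : ℕ, 68 / 100 * ((n : ℝ) / Real.log n) ≤ m → (m : ℝ) ≤ 120 / 100 * (n / Real.log n) →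
  lam p (m + 1) ≤ 11 / 10 → 0 < a m ∧ m * (a (m - 1) * a (m + 1)) ≤ (m + 1) * a m ^ 2

/-! ### the decreasing part -/

/-- unused colours of `univ` and of `univ \ W0` -/
def ST_LMW : Prop := ∃ n₀ : ℕ, ∀ n ≥ n₀, ∀ (D0 r m : ℕ) (E : Finset (Finset (Fin n)))
  (W0 : Finset (Fin n)), RegW D0 r E W0 →
  67 / 100 * ((n : ℝ) / Real.log n) ≤ m → (m : ℝ) ≤ 1205 / 1000 * (n / Real.log n) →
  (m + 1) * (PP E (univ \ W0) m : ℝ) ≤ 106 / 100 * PP E (univ \ W0) (m + 1) →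
  (m + 1) * (PP E univ m : ℝ) ≤ 109 / 100 * PP E univ (m + 1)

/-- all components decrease -/
def ST_CDE : Prop := ∃ n₀ : ℕ, ∀ n ≥ n₀, ∀ (D0 r m : ℕ) (E : Finset (Finset (Fin n)))
  (W0 : Finset (Fin n)) (Q : Finset (Finset (Fin n))), RegW D0 r E W0 → Q ∈ QQ E W0 →
  (1195 / 1000 * ((n : ℝ) / Real.log n) ≤ m ∨
    (68 / 100 * ((n : ℝ) / Real.log n) ≤ m ∧ (m : ℝ) ≤ 1205 / 1000 * (n / Real.log n) ∧
      106 / 100 * (PP E (univ \ W0) (m + 1) : ℝ) ≤ (m + 1) * PP E (univ \ W0) m)) →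
  AA E (univ \ un Q) (m - Q.card + 1) ≤ (m - Q.card + 1) * AA E (univ \ un Q) (m - Q.card)

/-- the sequence decreases -/
def ST_DCE : Prop := ∃ n₀ : ℕ, ∀ n ≥ n₀, ∀ (D0 r m : ℕ) (E : Finset (Finset (Fin n)))
  (W0 : Finset (Fin n)), RegW D0 r E W0 →
  (1195 / 1000 * ((n : ℝ) / Real.log n) ≤ m ∨
    (68 / 100 * ((n : ℝ) / Real.log n) ≤ m ∧ (m : ℝ) ≤ 1205 / 1000 * (n / Real.log n) ∧
      11 / 10 * (PP E univ (m + 1) : ℝ) ≤ (m + 1) * PP E univ m)) →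
  AA E univ (m + 1) ≤ (m + 1) * AA E univ m

/-! ### end -/

/-- the main theorem for large `n` -/
def ST_MA2 : Prop := ∃ n₀ : ℕ, ∀ n ≥ n₀, ∀ (E : Finset (Finset (Fin n))) (W0 : Finset (Fin n)),
  (W0.card : ℝ) ≤ 1 / 100000 * (Real.sqrt n / Real.log n) →
  (∀ v : Fin n, v ∉ W0 →
    ((E.filter (fun e => v ∈ e ∧ (e.card : ℝ) < 2000 * Real.log n)).card : ℝ) ≤
      1 / 100000 * (n / Real.log n)) →
    ∃ k : ℕ, (∀ i j : ℕ, 1 ≤ i → i ≤ j → j ≤ k → Pool.Agent.Helper89.UB.bc E i ≤ Pool.Agent.Helper89.UB.bc E j) ∧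
      (∀ i j : ℕ, k ≤ i → i ≤ j → j ≤ n → Pool.Agent.Helper89.UB.bc E j ≤ Pool.Agent.Helper89.UB.bc E i)

/-- the main theorem -/
def ST_MAC : Prop := ∃ c C : ℝ, 0 < c ∧ 0 < C ∧ ∀ n : ℕ, 2 ≤ n →
  ∀ (E : Finset (Finset (Fin n))) (W0 : Finset (Fin n)), (∀ e ∈ E, e.Nonempty) →
  (W0.card : ℝ) ≤ c * (Real.sqrt n / Real.log n) →
  (∀ v : Fin n, v ∉ W0 → ((E.filter (fun e => v ∈ e ∧ (e.card : ℝ) < C * Real.log n)).card : ℝ) ≤
    c * (n / Real.log n)) →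
    ∃ k : ℕ, (∀ i j : ℕ, 1 ≤ i → i ≤ j → j ≤ k → Pool.Agent.Helper89.UB.bc E i ≤ Pool.Agent.Helper89.UB.bc E j) ∧
      (∀ i j : ℕ, k ≤ i → i ≤ j → j ≤ n → Pool.Agent.Helper89.UB.bc E j ≤ Pool.Agent.Helper89.UB.bc E i)

/-- few edges with fewer than `C log n` vertices -/
def ST_EDG : Prop := ∃ c C : ℝ, 0 < c ∧ 0 < C ∧ ∀ n : ℕ, 2 ≤ n →
  ∀ (E : Finset (Finset (Fin n))), (∀ e ∈ E, e.Nonempty) →
  ((E.filter (fun e => (e.card : ℝ) < C * Real.log n)).card : ℝ) ≤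
    c * ((n : ℝ) * Real.sqrt n / Real.log n ^ 3) →
    ∃ k : ℕ, (∀ i j : ℕ, 1 ≤ i → i ≤ j → j ≤ k → Pool.Agent.Helper89.UB.bc E i ≤ Pool.Agent.Helper89.UB.bc E j) ∧
      (∀ i j : ℕ, k ≤ i → i ≤ j → j ≤ n → Pool.Agent.Helper89.UB.bc E j ≤ Pool.Agent.Helper89.UB.bc E i)

end Pool.Agent.Helper5.FV
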